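import Pool.Graph.R_pool_sql_team_seeded_1acbe0a2.Y938.SH.High
import Pool.Graph.R_pool_sql_team_seeded_1acbe0a2.Y938.SH.Pts

/-!
# MP_1a07a1_gt: the analytic version (helper138)

Every nonempty ANALYTIC subset of the sphere `S^(n-1)`, `n ≥ 3`, is the image of a pointwise limit of
self-homeomorphisms.  The new ingredient is a Baire-one surjection from the Cantor space onto the Baire
space.
-/

set_option autoImplicit false

open Filter Topology Set

namespace Pool.Agent.H138.SHA

/-- `V` is good for analytic sets. -/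
def Good (V : Type) [NormedAddCommGroup V] : Prop :=
  ∀ (S : Type) [MetricSpace S] [CompactSpace S] (j : V → S) (inf : S),
    IsOpenEmbedding j → (∀ s : S, s ≠ inf → s ∈ range j) → DenseRange j →
    (∀ u : ℕ → V, Tendsto (fun k => ‖u k‖) atTop atTop → Tendsto (fun k => j (u k)) atTop (𝓝 inf)) →
    ∀ C : Set S, MeasureTheory.AnalyticSet C → inf ∈ C →
      ∃ H : ℕ → (V ≃ₜ V),
        (∀ p : V, ∃ q ∈ C, Tendsto (fun k => j (H k p)) atTop (𝓝 q)) ∧
        (∀ q ∈ C, q ≠ inf → ∃ p : V, Tendsto (fun k => j (H k p)) atTop (𝓝 q))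

/-- The Baire-one map from the Cantor space onto the Baire space: the `m`-th value is the first
place where the `m`-th row is `true`, and `0` if there is none. -/
noncomputable def phi (z : ℕ → Bool) : ℕ → ℕ := fun m => sInf {n | z (Nat.pair m n) = true}

/-- Its finite approximations, which depend on finitely many bits. -/
noncomputable def phik (k : ℕ) (s : Fin k → Bool) : ℕ → ℕ :=
  fun m => sInf {n | ∃ h : Nat.pair m n < k, s ⟨Nat.pair m n, h⟩ = true}

theorem phi_surjective : Function.Surjective phi := by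
  intro a
  refine ⟨fun i => decide ((Nat.unpair i).2 = a (Nat.unpair i).1), ?_⟩
  funext m
  unfold phi
  have h : {n | (fun i => decide ((Nat.unpair i).2 = a (Nat.unpair i).1)) (Nat.pair m n) = true} =
      {a m} := by
    ext n
    simp
  rw [h]
  exact csInf_singleton _

theorem phik_tendsto (z : ℕ → Bool) :
    Tendsto (fun k => phik k (fun i : Fin k => z i)) atTop (𝓝 (phi z)) := by
  rw [tendsto_pi_nhds]
  intro m
  refine tendsto_const_nhds.congr' ?_
  by_cases hne : ({n | z (Nat.pair m n) = true} : Set ℕ).Nonempty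
  · have h0 : phi z m ∈ ({n | z (Nat.pair m n) = true} : Set ℕ) := Nat.sInf_mem hne
    filter_upwards [eventually_gt_atTop (Nat.pair m (phi z m))] with k hk
    have hmem : phi z m ∈ {n | ∃ h : Nat.pair m n < k, (fun i : Fin k => z i) ⟨Nat.pair m n, h⟩ = true} :=
      ⟨hk, h0⟩
    apply le_antisymm
    · apply le_csInf ⟨_, hmem⟩
      rintro n ⟨_, hn⟩
      exact Nat.sInf_le (s := {n | z (Nat.pair m n) = true}) hn
    · exact Nat.sInf_le hmem
  · rw [not_nonempty_iff_eq_empty] at hne
    filter_upwards with k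
    unfold phi phik
    have h1 : {n | ∃ h : Nat.pair m n < k, (fun i : Fin k => z i) ⟨Nat.pair m n, h⟩ = true} = ∅ := by
      rw [eq_empty_iff_forall_notMem]
      rintro n ⟨_, hn⟩
      have : n ∈ ({n | z (Nat.pair m n) = true} : Set ℕ) := hn
      rw [hne] at this
      exact this
    rw [h1, hne]

open Pool.Agent.Y938.SH in
theorem high (W : Type) [NormedAddCommGroup W] [NormedSpace ℝ W] [FiniteDimensional ℝ W]
    [Nontrivial W] : Good (ℝ × W) := by
  intro S _ _ j inf hj _hinf hdense hprop C hC hCinf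
  obtain ⟨e1, he1⟩ := exists_norm_eq W (c := 1) zero_le_one
  obtain ⟨f, hf, hfC⟩ : ∃ f : (ℕ → ℕ) → S, Continuous f ∧ range f = C := by
    rw [MeasureTheory.AnalyticSet] at hC
    rcases hC with h | h
    · rw [h] at hCinf
      exact absurd hCinf (notMem_empty _)
    · exact h
  have hpts : ∀ k : ℕ, ∃ (a : (Fin k → Bool) → ℝ) (b : (Fin k → Bool) → W) (r : ℝ),
      Function.Injective b ∧ 0 < r ∧ ∀ (s : Fin k → Bool) (t : ℝ), |t| ≤ r →
        dist (j (t + a s, b s)) (f (phik k s)) < 1 / ((k : ℝ) + 1) := fun k =>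
    pts_spec W S j hj.continuous hdense (Fin k → Bool) (fun s => f (phik k s))
      (1 / ((k : ℝ) + 1)) (by positivity)
  choose a b r hb hr hab using hpts
  have hfun := fun k : ℕ => fun_spec W cantorSet isCompact_cantorSet
    (fun x => cantorSetHomeomorphNatToBool x) cantorSetHomeomorphNatToBool.continuous k (a k) (b k)
    (hb k)
  choose hψ' hχ' using hfun
  choose ψ hψc hψ using hψ'
  choose χ hχc hχ using hχ'
  have hbd : ∀ k : ℕ, ∃ M : ℝ, 0 ≤ M ∧ ∀ x ∈ Icc (-(k : ℝ)) k, ‖ψ k x‖ ≤ M := by
    intro k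
    obtain ⟨M, hM⟩ := isCompact_Icc.exists_bound_of_continuousOn (s := Icc (-(k : ℝ)) k)
      (hψc k).continuousOn
    exact ⟨max M 0, le_max_right _ _, fun x hx => (hM x hx).trans (le_max_left _ _)⟩
  choose M hM0 hM using hbd
  have hN0 : ∀ k : ℕ, 0 < ((k : ℝ) + 1) * (1 + M k) := fun k => by
    have := hM0 k
    positivity
  have hH := fun k : ℕ => shear_spec W ((((k : ℝ) + 1) * (1 + M k)) ^ 2) (min (r k) 1)
    (by have := hN0 k; positivity) (lt_min (hr k) one_pos)
    (fun x => ((((k : ℝ) + 1) * (1 + M k)) * Metric.infDist x cantorSet) • e1 + ψ k x) (χ k)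
    (((continuous_const.mul (Metric.continuous_infDist_pt _)).smul continuous_const).add (hψc k))
    (hχc k)
  choose H hHe using hH
  -- the points over the Cantor set
  have key : ∀ x : cantorSet, Tendsto (fun k => j (H k ((x : ℝ), (0 : W)))) atTop
      (𝓝 (f (phi (cantorSetHomeomorphNatToBool x)))) := by
    intro x
    set z := cantorSetHomeomorphNatToBool x with hz
    have hx1 := cantorSet_subset_unitInterval x.2
    have ht : Tendsto (fun k => f (phik k (fun i : Fin k => z i))) atTop (𝓝 (f (phi z))) :=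
      (hf.tendsto _).comp (phik_tendsto z)
    have hval : ∀ k, H k ((x : ℝ), (0 : W)) =
        (min (r k) 1 * (x : ℝ) + a k (fun i : Fin k => z i), b k (fun i : Fin k => z i)) := by
      intro k
      rw [hHe k]
      have h5 : Metric.infDist (x : ℝ) cantorSet = 0 := Metric.infDist_zero_of_mem x.2
      simp only [h5, mul_zero, zero_smul, zero_add, smul_zero, hψ k x, hχ k]
      rfl
    have hd : ∀ k, dist (j (H k ((x : ℝ), (0 : W)))) (f (phik k (fun i : Fin k => z i))) <
        1 / ((k : ℝ) + 1) := by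
      intro k
      rw [hval k]
      apply hab k
      have h0 : 0 ≤ min (r k) 1 := le_min (hr k).le zero_le_one
      rw [abs_of_nonneg (mul_nonneg h0 hx1.1)]
      calc min (r k) 1 * (x : ℝ) ≤ r k * 1 :=
            mul_le_mul (min_le_left _ _) hx1.2 hx1.1 (hr k).le
        _ = r k := mul_one _
    have hd0 : Tendsto (fun k => dist (j (H k ((x : ℝ), (0 : W))))
        (f (phik k (fun i : Fin k => z i)))) atTop (𝓝 0) :=
      squeeze_zero (fun _ => dist_nonneg) (fun k => (hd k).le) tendsto_one_div_add_atTop_nhds_zero_nat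
    exact (tendsto_iff_of_dist hd0).2 ht
  refine ⟨H, ?_, ?_⟩
  · rintro ⟨x, y⟩
    by_cases hxy : x ∈ cantorSet ∧ y = 0
    · obtain ⟨hx, rfl⟩ := hxy
      exact ⟨_, hfC ▸ mem_range_self _, key ⟨x, hx⟩⟩
    · refine ⟨inf, hCinf, hprop _ ?_⟩
      have hyD : y ≠ 0 ∨ 0 < Metric.infDist x cantorSet := by
        by_cases hy : y = 0
        · right
          exact (isClosed_cantorSet.notMem_iff_infDist_pos ⟨0, zero_mem_cantorSet⟩).1
            (fun hx => hxy ⟨hx, hy⟩)
        · exact Or.inl hy
      have hev : ∀ᶠ k : ℕ in atTop, ‖ψ k x‖ ≤ M k := by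
        obtain ⟨n, hn⟩ := exists_nat_ge |x|
        filter_upwards [eventually_ge_atTop n] with k hk
        have : |x| ≤ k := hn.trans (by exact_mod_cast hk)
        exact hM k x (abs_le.1 this)
      have hg' := High.grow e1 he1 (fun k : ℕ => ((k : ℝ) + 1) * (1 + M k)) M hM0 (fun _ => rfl)
        (Metric.infDist x cantorSet) Metric.infDist_nonneg y hyD (fun k => ψ k x) hev
      refine tendsto_atTop_mono (fun k => ?_) hg'
      rw [hHe k]
      exact le_max_right _ _
  · intro q hq _
    rw [← hfC] at hq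
    obtain ⟨w, rfl⟩ := hq
    obtain ⟨z, rfl⟩ := phi_surjective w
    refine ⟨(((cantorSetHomeomorphNatToBool.symm z : cantorSet) : ℝ), 0), ?_⟩
    have := key (cantorSetHomeomorphNatToBool.symm z)
    rwa [Homeomorph.apply_symm_apply] at this

end Pool.Agent.H138.SHA
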