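import Pool.Agent.H138.SHA.High

/-!
# Transport and the sphere for analytic sets (after helper550's closed version)
-/

set_option autoImplicit false

open Filter Topology Set

namespace Pool.Agent.H138.SHA

theorem transport (V V' : Type) [NormedAddCommGroup V] [NormedSpace ℝ V] [NormedAddCommGroup V']
    [NormedSpace ℝ V'] (L : V ≃L[ℝ] V') (hV : Good V) : Good V' := by
  intro S _ _ j inf hj hr hd hu C hC hinf
  have hnorm : ∀ u : ℕ → V, Tendsto (fun k => ‖u k‖) atTop atTop →
      Tendsto (fun k => ‖L (u k)‖) atTop atTop := by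
    intro u h
    rw [tendsto_norm_atTop_iff_cobounded] at h ⊢
    exact L.antilipschitz.tendsto_cobounded.comp h
  obtain ⟨H, h1, h2⟩ := hV S (fun x => j (L x)) inf (hj.comp L.toHomeomorph.isOpenEmbedding)
    (fun s hs => by
      obtain ⟨y, rfl⟩ := hr s hs
      obtain ⟨x, rfl⟩ := L.surjective y
      exact ⟨x, rfl⟩)
    (hd.comp L.surjective.denseRange hj.continuous)
    (fun u hu' => hu (fun k => L (u k)) (hnorm u hu')) C hC hinf
  refine ⟨fun k => L.symm.toHomeomorph.trans ((H k).trans L.toHomeomorph), fun p => ?_,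
    fun q hq hqi => ?_⟩
  · exact h1 (L.symm p)
  · obtain ⟨p, hp⟩ := h2 q hq hqi
    refine ⟨L p, hp.congr fun k => ?_⟩
    show j (L (H k p)) = j (L (H k (L.symm (L p))))
    rw [L.symm_apply_apply]

theorem sphere (n : ℕ) (hn : 1 ≤ n)
    (hgood : ∀ (V : Type) [NormedAddCommGroup V] [InnerProductSpace ℝ V] [FiniteDimensional ℝ V],
      Module.finrank ℝ V = n → Good V)
    (C : Set ↥(Metric.sphere (0 : EuclideanSpace ℝ (Fin (n + 1))) (1 : ℝ)))
    (hC : MeasureTheory.AnalyticSet C) (hCne : C.Nonempty) :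
      ∃ H : ℕ → (↥(Metric.sphere (0 : EuclideanSpace ℝ (Fin (n + 1))) (1 : ℝ)) ≃ₜ
                  ↥(Metric.sphere (0 : EuclideanSpace ℝ (Fin (n + 1))) (1 : ℝ))),
        (∀ p : ↥(Metric.sphere (0 : EuclideanSpace ℝ (Fin (n + 1))) (1 : ℝ)),
            ∃ q ∈ C, Tendsto (fun k : ℕ => H k p) atTop (𝓝 q)) ∧
        (∀ q ∈ C, ∃ p : ↥(Metric.sphere (0 : EuclideanSpace ℝ (Fin (n + 1))) (1 : ℝ)),
            Tendsto (fun k : ℕ => H k p) atTop (𝓝 q)) := by
  obtain ⟨v, hv⟩ := hCne
  have hv1 : ‖(v : EuclideanSpace ℝ (Fin (n + 1)))‖ = 1 := mem_sphere_zero_iff_norm.1 v.2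
  have hv0 : (v : EuclideanSpace ℝ (Fin (n + 1))) ≠ 0 := by
    intro h
    rw [h, norm_zero] at hv1
    exact zero_ne_one hv1
  have hfact : Fact (Module.finrank ℝ (EuclideanSpace ℝ (Fin (n + 1))) = n + 1) := ⟨by simp⟩
  have hfin : Module.finrank ℝ (Submodule.span ℝ {(v : EuclideanSpace ℝ (Fin (n + 1)))})ᗮ = n :=
    Submodule.finrank_orthogonal_span_singleton hv0
  have hnt : Nontrivial (Submodule.span ℝ {(v : EuclideanSpace ℝ (Fin (n + 1)))})ᗮ :=
    Module.nontrivial_of_finrank_pos (R := ℝ) (by omega)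
  have hnc : NoncompactSpace (Submodule.span ℝ {(v : EuclideanSpace ℝ (Fin (n + 1)))})ᗮ :=
    NormedSpace.noncompactSpace ℝ _
  let e : OnePoint (Submodule.span ℝ {(v : EuclideanSpace ℝ (Fin (n + 1)))})ᗮ ≃ₜ
    Metric.sphere (0 : EuclideanSpace ℝ (Fin (n + 1))) 1 := onePointHyperplaneHomeoUnitSphere hv1
  let j : (Submodule.span ℝ {(v : EuclideanSpace ℝ (Fin (n + 1)))})ᗮ →
    Metric.sphere (0 : EuclideanSpace ℝ (Fin (n + 1))) 1 := (stereographic hv1).symm
  have hje : ∀ x : (Submodule.span ℝ {(v : EuclideanSpace ℝ (Fin (n + 1)))})ᗮ,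
      e (x : OnePoint (Submodule.span ℝ {(v : EuclideanSpace ℝ (Fin (n + 1)))})ᗮ) = j x :=
    fun x => rfl
  have hinf : e OnePoint.infty = v := rfl
  have hrange : ∀ s : Metric.sphere (0 : EuclideanSpace ℝ (Fin (n + 1))) 1, s ≠ v →
      s ∈ range j := by
    intro s hs
    show s ∈ range (stereographic hv1).symm
    rw [range_stereographic_symm hv1]
    exact hs
  have hdense : DenseRange j := by
    have h := e.surjective.denseRange.comp (OnePoint.denseRange_coe
      (X := (Submodule.span ℝ {(v : EuclideanSpace ℝ (Fin (n + 1)))})ᗮ)) e.continuous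
    exact h
  have hlim : ∀ u : ℕ → (Submodule.span ℝ {(v : EuclideanSpace ℝ (Fin (n + 1)))})ᗮ,
      Tendsto (fun k => ‖u k‖) atTop atTop → Tendsto (fun k => j (u k)) atTop (𝓝 v) := by
    intro u hu
    rw [tendsto_norm_atTop_iff_cobounded, Metric.cobounded_eq_cocompact,
      ← coclosedCompact_eq_cocompact] at hu
    have h := (e.continuous.tendsto OnePoint.infty).comp (OnePoint.tendsto_coe_infty.comp hu)
    exact h
  obtain ⟨H, h1, h2⟩ := hgood (Submodule.span ℝ {(v : EuclideanSpace ℝ (Fin (n + 1)))})ᗮ hfin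
    (Metric.sphere (0 : EuclideanSpace ℝ (Fin (n + 1))) 1) j v
    (isOpenEmbedding_stereographic_symm hv1) hrange hdense hlim C hC hv
  have hHj : ∀ k x, (e.symm.trans ((H k).onePointCongr.trans e)) (j x) = j (H k x) := by
    intro k x
    show e ((H k).onePointCongr (e.symm (j x))) = j (H k x)
    rw [← hje x, e.symm_apply_apply]
    rfl
  have hHv : ∀ k, (e.symm.trans ((H k).onePointCongr.trans e)) v = v := by
    intro k
    show e ((H k).onePointCongr (e.symm v)) = v
    have h3 : e.symm v = OnePoint.infty := e.symm_apply_apply OnePoint.infty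
    rw [h3]
    exact hinf
  refine ⟨fun k => e.symm.trans ((H k).onePointCongr.trans e), fun p => ?_, fun q hq => ?_⟩
  · by_cases hp : p = v
    · refine ⟨v, hv, ?_⟩
      rw [hp]
      simp only [hHv]
      exact tendsto_const_nhds
    · obtain ⟨x, rfl⟩ := hrange p hp
      simp only [hHj]
      exact h1 x
  · by_cases hqv : q = v
    · refine ⟨v, ?_⟩
      rw [hqv]
      simp only [hHv]
      exact tendsto_const_nhds
    · obtain ⟨x, hx⟩ := h2 q hq hqv
      refine ⟨j x, ?_⟩
      simp only [hHj]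
      exact hx

/-- The positive half, for `n ≥ 3`. -/
theorem exists_of_analytic (n : ℕ) (hn : 3 ≤ n)
    (C : Set ↥(Metric.sphere (0 : EuclideanSpace ℝ (Fin n)) (1 : ℝ)))
    (hC : MeasureTheory.AnalyticSet C) (hCne : C.Nonempty) :
      ∃ H : ℕ → (↥(Metric.sphere (0 : EuclideanSpace ℝ (Fin n)) (1 : ℝ)) ≃ₜ
                  ↥(Metric.sphere (0 : EuclideanSpace ℝ (Fin n)) (1 : ℝ))),
        (∀ p : ↥(Metric.sphere (0 : EuclideanSpace ℝ (Fin n)) (1 : ℝ)),
            ∃ q ∈ C, Tendsto (fun k : ℕ => H k p) atTop (𝓝 q)) ∧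
        (∀ q ∈ C, ∃ p : ↥(Metric.sphere (0 : EuclideanSpace ℝ (Fin n)) (1 : ℝ)),
            Tendsto (fun k : ℕ => H k p) atTop (𝓝 q)) := by
  obtain ⟨l, rfl⟩ : ∃ l, n = l + 2 + 1 := ⟨n - 3, by omega⟩
  refine sphere (l + 2) (by omega) ?_ C hC hCne
  intro V _ _ _ hV
  have h1 : Module.finrank ℝ (ℝ × EuclideanSpace ℝ (Fin (l + 1))) = Module.finrank ℝ V := by
    rw [hV, Module.finrank_prod]; simp; ring
  obtain ⟨e⟩ := FiniteDimensional.nonempty_continuousLinearEquiv_of_finrank_eq h1
  exact transport _ V e (high _)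

/-- The converse, for all `n`: the image of an everywhere existing pointwise limit of continuous
maps of a compact metric space is analytic. -/
theorem analytic_of_exists {S : Type} [MetricSpace S] [CompactSpace S] (C : Set S)
    (H : ℕ → S ≃ₜ S) (h1 : ∀ p : S, ∃ q ∈ C, Tendsto (fun k : ℕ => H k p) atTop (𝓝 q))
    (h2 : ∀ q ∈ C, ∃ p : S, Tendsto (fun k : ℕ => H k p) atTop (𝓝 q)) :
    MeasureTheory.AnalyticSet C := by
  borelize S
  choose h hh using h1
  have hm : Measurable h := by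
    refine measurable_of_tendsto_metrizable (f := fun k p => H k p)
      (fun k => (H k).continuous.measurable) ?_
    rw [tendsto_pi_nhds]
    exact fun p => (hh p).2
  have hr : range h = C := by
    ext q
    constructor
    · rintro ⟨p, rfl⟩
      exact (hh p).1
    · intro hq
      obtain ⟨p, hp⟩ := h2 q hq
      exact ⟨p, tendsto_nhds_unique (hh p).2 hp⟩
  rw [← hr, ← image_univ]
  exact MeasurableSet.univ.analyticSet_image hm

end Pool.Agent.H138.SHA
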